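import Mathlib

open Cardinal Set Order

universe u

namespace Pool.Agent.H.MP_5fddfa_lc

variable {X : Type u}

theorem mk_iUnion_le_of_le {I : Type u} (f : I → Set X) (c : Cardinal.{u}) (hc : ℵ₀ ≤ c)
    (hI : #I ≤ c) (hf : ∀ i, #(f i) ≤ c) : #(⋃ i, f i) ≤ c := by
  refine (mk_iUnion_le_sum_mk (f := f)).trans ?_
  refine (sum_le_sum _ (fun _ => c) hf).trans ?_
  rw [sum_const']
  calc #I * c ≤ c * c := mul_le_mul' hI le_rfl
    _ = c := mul_eq_self hc

theorem mk_biUnion_le_of_le {I : Type u} (A : Set I) (f : I → Set X) (c : Cardinal.{u})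
    (hc : ℵ₀ ≤ c) (hI : #A ≤ c) (hf : ∀ i ∈ A, #(f i) ≤ c) : #(⋃ i ∈ A, f i) ≤ c := by
  rw [biUnion_eq_iUnion]
  exact mk_iUnion_le_of_le _ c hc hI (fun i => hf i.1 i.2)

theorem mk_iUnion_nat_le_of_le (f : ℕ → Set X) (c : Cardinal.{u}) (hc : ℵ₀ ≤ c)
    (hf : ∀ i, #(f i) ≤ c) : #(⋃ i, f i) ≤ c := by
  have : (⋃ i, f i) = ⋃ i : ULift.{u} ℕ, f i.down := by
    ext x
    simp only [mem_iUnion]
    exact ⟨fun ⟨i, hi⟩ => ⟨⟨i⟩, hi⟩, fun ⟨i, hi⟩ => ⟨i.down, hi⟩⟩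
  rw [this]
  refine mk_iUnion_le_of_le _ c hc ?_ (fun i => hf _)
  simpa using hc

/-- One closing step. -/
def stepSet (κ : Cardinal.{u}) (G : Set X → Set X) (Q : Set X) : Set X :=
  Q ∪ ⋃ a ∈ {a : Set X | a ⊆ Q ∧ #a ≤ κ}, G a

theorem mk_stepSet_le (κ : Cardinal.{u}) (hκ : ℵ₀ ≤ κ) (G : Set X → Set X)
    (hG : ∀ a : Set X, #a ≤ κ → #(G a) ≤ 2 ^ κ) (Q : Set X) (hQ : #Q ≤ 2 ^ κ) :
    #(stepSet κ G Q) ≤ 2 ^ κ := by
  have h2 : ℵ₀ ≤ (2 : Cardinal.{u}) ^ κ := hκ.trans (cantor κ).le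
  refine (mk_union_le _ _).trans ?_
  refine (add_le_add hQ ?_).trans (add_eq_self h2).le
  refine mk_biUnion_le_of_le _ _ _ h2 ?_ (fun a ha => hG a ha.2)
  have h3 : #{a : Set X | a ⊆ Q ∧ #a ≤ κ} ≤ max #Q ℵ₀ ^ κ := mk_bounded_subset_le Q κ
  refine h3.trans ?_
  calc max #Q ℵ₀ ^ κ ≤ (2 ^ κ) ^ κ := power_le_power_right (max_le hQ h2)
    _ = 2 ^ (κ * κ) := (power_mul).symm
    _ = 2 ^ κ := by rw [mul_eq_self hκ]

theorem exists_closed (κ : Cardinal.{u}) (hκ : ℵ₀ ≤ κ) (G : Set X → Set X)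
    (hG : ∀ a : Set X, #a ≤ κ → #(G a) ≤ 2 ^ κ) :
    ∃ P : Set X, #P ≤ 2 ^ κ ∧ ∀ a ⊆ P, #a ≤ κ → G a ⊆ P := by
  classical
  have h2 : ℵ₀ ≤ (2 : Cardinal.{u}) ^ κ := hκ.trans (cantor κ).le
  let I := (succ κ).ord.ToType
  have hI : #I = succ κ := by simp [I]
  have hsucc : succ κ ≤ 2 ^ κ := succ_le_of_lt (cantor κ)
  let P : I → Set X := WellFoundedLT.fix (fun (i : I) (rec : ∀ j, j < i → Set X) =>
    ⋃ j : {j // j < i}, stepSet κ G (rec j.1 j.2))
  have hP : ∀ i, P i = ⋃ j : {j // j < i}, stepSet κ G (P j.1) := by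
    intro i
    exact WellFoundedLT.fix_eq _ i
  have hcard : ∀ i, #(P i) ≤ 2 ^ κ := by
    intro i
    induction i using WellFoundedLT.induction with
    | ind i ih =>
      rw [hP]
      refine mk_iUnion_le_of_le _ _ h2 ?_ ?_
      · exact ((mk_subtype_le _).trans hI.le).trans hsucc
      · intro j
        exact mk_stepSet_le κ hκ G hG _ (ih j.1 j.2)
  have hmono : ∀ i j, i < j → stepSet κ G (P i) ⊆ P j := by
    intro i j hij
    rw [hP j]
    exact subset_iUnion (fun k : {k // k < j} => stepSet κ G (P k.1)) ⟨i, hij⟩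
  have hmono' : ∀ i j, i ≤ j → P i ⊆ P j := by
    intro i j hij
    rcases hij.lt_or_eq with h | h
    · exact (subset_union_left).trans (hmono i j h)
    · rw [h]
  have hreg : Order.cof I = succ κ := by
    have := (isRegular_succ hκ).cof_ord
    exact (Ordinal.cof_toType _).trans this
  -- bounding lemma
  have hbound : ∀ (a : Set X), #a ≤ κ → ∀ g : a → I, ∃ i, ∀ y, g y < i := by
    intro a ha g
    have h1 : ¬ IsCofinal (range g) := by
      intro hc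
      have := Order.cof_le hc
      rw [hreg] at this
      exact absurd (this.trans (mk_range_le.trans ha)) (not_le.2 (lt_succ κ))
    rw [IsCofinal] at h1
    push Not at h1
    obtain ⟨i, hi⟩ := h1
    exact ⟨i, fun y => hi _ (mem_range_self y)⟩
  refine ⟨⋃ i, P i, ?_, ?_⟩
  · exact mk_iUnion_le_of_le _ _ h2 (hI.le.trans hsucc) hcard
  · intro a ha hka
    have h1 : ∀ y : a, ∃ i, y.1 ∈ P i := by
      intro y
      simpa using ha y.2
    choose g hg using h1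
    obtain ⟨i, hi⟩ := hbound a hka g
    have h2 : a ⊆ P i := fun y hy => hmono' _ _ (hi ⟨y, hy⟩).le (hg ⟨y, hy⟩)
    -- there is j > i
    have h3 : ∃ j : I, i < j := by
      by_contra hcon
      push Not at hcon
      have hc : IsCofinal ({i} : Set I) := fun j => ⟨i, rfl, hcon j⟩
      have := Order.cof_le hc
      rw [hreg] at this
      have h4 : succ κ ≤ 1 := by simpa using this
      have h5 : (1 : Cardinal.{u}) < succ κ := (one_lt_aleph0.trans_le hκ).trans (lt_succ κ)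
      exact absurd h4 (not_le.2 h5)
    obtain ⟨j, hj⟩ := h3
    have h4 : G a ⊆ stepSet κ G (P i) := by
      refine subset_union_of_subset_right ?_ _
      exact subset_biUnion_of_mem (u := fun a => G a) (show a ∈ {a : Set X | a ⊆ P i ∧ #a ≤ κ} from ⟨h2, hka⟩)
    exact (h4.trans (hmono i j hj)).trans (subset_iUnion P j)

end Pool.Agent.H.MP_5fddfa_lc
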