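import Mathlib
import Pool.Agent.H.MP_5fddfa_lc.Closure

open Cardinal Set Order

universe u

namespace Pool.Agent.H.MP_5fddfa_lc

variable {S : Type u} (f : S → Set S)

/-- Two points are non-adjacent (independent) for the set mapping `f`. -/
def Ind (x y : S) : Prop := x ≠ y ∧ x ∉ f y ∧ y ∉ f x

/-- Points independent from every element of `a`. -/
def TT (a : Set S) : Set S := {z | ∀ y ∈ a, Ind f z y}

/-- The ideal of null subsets of `P` at the point `x`. -/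
def Null (P : Set S) (κ : Cardinal.{u}) (x : S) (A : Set S) : Prop :=
  ∃ a ⊆ P, #a ≤ κ ∧ x ∈ TT f a ∧ #(A ∩ TT f a : Set S) ≤ κ

variable {f}

theorem Ind.symm {x y : S} (h : Ind f x y) : Ind f y x := ⟨h.1.symm, h.2.2, h.2.1⟩

theorem TT_anti {a b : Set S} (h : a ⊆ b) : TT f b ⊆ TT f a := fun _ hz y hy => hz y (h hy)

theorem Null.mono {P : Set S} {κ : Cardinal.{u}} {x : S} {A B : Set S} (h : A ⊆ B)
    (hB : Null f P κ x B) : Null f P κ x A := by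
  obtain ⟨a, ha, hκ, hx, hc⟩ := hB
  exact ⟨a, ha, hκ, hx, (mk_le_mk_of_subset (inter_subset_inter_left _ h)).trans hc⟩

theorem null_iUnion {P : Set S} {κ : Cardinal.{u}} (hκ : ℵ₀ ≤ κ) {x : S} {J : Type u}
    (hJ : #J ≤ κ) (A : J → Set S) (h : ∀ j, Null f P κ x (A j)) : Null f P κ x (⋃ j, A j) := by
  choose a ha hκa hx hc using h
  refine ⟨⋃ j, a j, iUnion_subset ha, mk_iUnion_le_of_le _ _ hκ hJ hκa, ?_, ?_⟩
  · intro y hy
    obtain ⟨j, hj⟩ := mem_iUnion.1 hy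
    exact hx j y hj
  · have : (⋃ j, A j) ∩ TT f (⋃ j, a j) ⊆ ⋃ j, (A j ∩ TT f (a j)) := by
      rintro z ⟨hz, hzT⟩
      obtain ⟨j, hj⟩ := mem_iUnion.1 hz
      exact mem_iUnion.2 ⟨j, hj, TT_anti (subset_iUnion a j) hzT⟩
    exact (mk_le_mk_of_subset this).trans (mk_iUnion_le_of_le _ _ hκ hJ hc)

theorem not_null_card {P : Set S} {κ : Cardinal.{u}} {x : S} {A : Set S}
    (h : ¬ Null f P κ x A) {a : Set S} (ha : a ⊆ P) (hκ : #a ≤ κ) (hx : x ∈ TT f a) :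
    κ < #(A ∩ TT f a : Set S) := by
  by_contra hcon
  exact h ⟨a, ha, hκ, hx, not_lt.1 hcon⟩

theorem not_null_nonempty {P : Set S} {κ : Cardinal.{u}} {x : S} {A : Set S}
    (h : ¬ Null f P κ x A) {a : Set S} (ha : a ⊆ P) (hκ : #a ≤ κ) (hx : x ∈ TT f a) :
    ∃ z ∈ A, z ∈ TT f a := by
  have h1 := not_null_card h ha hκ hx
  have h2 : #(A ∩ TT f a : Set S) ≠ 0 := fun h0 => by
    rw [h0] at h1
    exact absurd h1 (not_lt.2 (zero_le))
  obtain ⟨z, hz⟩ := mk_ne_zero_iff.1 h2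
  exact ⟨z, hz.1, hz.2⟩

/-- Maximal free subsets. -/
theorem exists_maximal_free (B : Set S) :
    ∃ A ⊆ B, A.Pairwise (Ind f) ∧ ∀ z ∈ B, z ∉ TT f A := by
  obtain ⟨A, hA⟩ := zorn_subset {A : Set S | A ⊆ B ∧ A.Pairwise (Ind f)} (by
    intro c hc hchain
    refine ⟨⋃₀ c, ⟨sUnion_subset fun s hs => (hc hs).1, ?_⟩, fun s hs => subset_sUnion_of_mem hs⟩
    exact (pairwise_sUnion hchain.directedOn).2 fun s hs => (hc hs).2)
  refine ⟨A, hA.prop.1, hA.prop.2, ?_⟩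
  intro z hz hzT
  have h1 : insert z A ∈ {A : Set S | A ⊆ B ∧ A.Pairwise (Ind f)} := by
    refine ⟨insert_subset hz hA.prop.1, ?_⟩
    intro x hx y hy hxy
    rcases hx with rfl | hx
    · rcases hy with rfl | hy
      · exact absurd rfl hxy
      · exact hzT y hy
    · rcases hy with rfl | hy
      · exact (hzT x hx).symm
      · exact hA.prop.2 hx hy hxy
  have h2 := hA.le_of_ge h1 (subset_insert z A)
  have h3 : z ∈ A := h2 (mem_insert z A)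
  exact (hzT z h3).1 rfl

/-- The context of the proof. -/
structure Ctx (f : S → Set S) (lam ι₀ : Cardinal.{u}) (κ : ℕ → Cardinal.{u}) (P : ℕ → Set S)
    (L : Set S) : Prop where
  inf : ∀ n, ℵ₀ ≤ κ n
  gei : ∀ n, ι₀ ≤ κ n
  lt : ∀ n, (2 : Cardinal.{u}) ^ κ n < lam
  mono : Monotone κ
  step : ∀ n, (2 : Cardinal.{u}) ^ (succ ((2 : Cardinal.{u}) ^ κ n)) ≤ κ (n + 1)
  pow : ∀ n, (2 : Cardinal.{u}) ^ ((2 : Cardinal.{u}) ^ κ n) ≤ lam
  Pcard : ∀ n, #(P n) ≤ (2 : Cardinal.{u}) ^ κ n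
  LP : ∀ x ∈ L, ∀ m, ∀ z ∈ P m, x ≠ z ∧ x ∉ f z
  Lbig : ∀ x ∈ L, ∀ m, ∀ a ⊆ P m, #a ≤ κ m → x ∈ TT f a → κ m < #(P m ∩ TT f a : Set S)
  Lfree : ∀ x ∈ L, ∀ m, ∀ A ⊆ P m, A.Pairwise (Ind f) → x ∈ TT f A → #A < ι₀

/-- The property of the sets chosen at step `h`. -/
def Good (f : S → Set S) (κ : ℕ → Cardinal.{u}) (P : ℕ → Set S) (L : Set S) (h : ℕ)
    (A : ℕ → Set S) (y : S) (w : Set S) : Prop :=
  w ⊆ L ∧ #w = κ h ∧ (∀ x ∈ w, ∀ m ≤ h, P m ∩ f x = P m ∩ f y) ∧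
    ∀ m, h < m → ¬ Null f (P m) (κ m) y (A m ∩ ⋂ x ∈ w, f x)

variable {lam ι₀ : Cardinal.{u}} {κ : ℕ → Cardinal.{u}} {P : ℕ → Set S} {L : Set S}

theorem Ctx.not_null_P (C : Ctx f lam ι₀ κ P L) {x : S} (hx : x ∈ L) (m : ℕ) :
    ¬ Null f (P m) (κ m) x (P m) := by
  rintro ⟨a, ha, hκ, hxa, hc⟩
  exact absurd (C.Lbig x hx m a ha hκ hxa) (not_lt.2 hc)

theorem Ctx.ind (C : Ctx f lam ι₀ κ P L) {x : S} (hx : x ∈ L) {m : ℕ} {z : S} (hz : z ∈ P m)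
    (h : z ∉ f x) : Ind f x z := ⟨(C.LP x hx m z hz).1, (C.LP x hx m z hz).2, h⟩

theorem Ctx.null_ind (C : Ctx f lam ι₀ κ P L) {x : S} (hx : x ∈ L) (m : ℕ) :
    Null f (P m) (κ m) x (P m ∩ {z | Ind f x z}) := by
  by_contra hcon
  obtain ⟨A, hA, hfree, hmax⟩ := exists_maximal_free (f := f) (P m ∩ {z | Ind f x z})
  have hxA : x ∈ TT f A := fun z hz => (hA hz).2
  have hAP : A ⊆ P m := fun z hz => (hA hz).1
  have hcard := C.Lfree x hx m A hAP hfree hxA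
  obtain ⟨z, hz, hzT⟩ := not_null_nonempty hcon hAP (hcard.le.trans (C.gei m)) hxA
  exact hmax z hz hzT

theorem Ctx.not_null_f (C : Ctx f lam ι₀ κ P L) {x : S} (hx : x ∈ L) (m : ℕ) :
    ¬ Null f (P m) (κ m) x (P m ∩ f x) := by
  intro h1
  have h2 := C.null_ind hx m
  refine C.not_null_P hx m ?_
  have h3 : Null f (P m) (κ m) x (⋃ b : ULift.{u} Bool,
      if b.down then P m ∩ f x else P m ∩ {z | Ind f x z}) := by
    refine null_iUnion (C.inf m) ?_ _ ?_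
    · exact (mk_le_aleph0).trans (C.inf m)
    · rintro ⟨b⟩
      cases b
      · simpa using h2
      · simpa using h1
  refine h3.mono ?_
  intro z hz
  rw [mem_iUnion]
  by_cases hzf : z ∈ f x
  · exact ⟨⟨true⟩, by simpa using ⟨hz, hzf⟩⟩
  · exact ⟨⟨false⟩, by simpa using ⟨hz, C.ind hx hz hzf⟩⟩

end Pool.Agent.H.MP_5fddfa_lc
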