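import Mathlib
import Pool.Agent.H.MP_5fddfa_lc.Core

open Cardinal Set Order

universe u

namespace Pool.Agent.H.MP_5fddfa_lc

variable {S : Type u} {f : S → Set S}
variable {lam ι₀ : Cardinal.{u}} {κ : ℕ → Cardinal.{u}} {P : ℕ → Set S} {L : Set S}

/-- The combinatorial heart: a family `W` of points and large colour sets `v y m`. -/
theorem Ctx.heart (C : Ctx f lam ι₀ κ P L) (h : ℕ) (A : S → ℕ → Set S)
    (hA : ∀ y m, A y m ⊆ P m) (W : Set S) (hWL : W ⊆ L)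
    (hW : #W = succ ((2 : Cardinal.{u}) ^ κ h)) (v : W → ℕ → Set W)
    (hv : ∀ (y : W) (m : ℕ), h < m →
      ¬ Null f (P m) (κ m) y.1 {z ∈ A y.1 m | {x : W | z ∈ f x.1} = v y m})
    (hsmall : ∀ y : W, #{x : W | ∀ m, h < m → x ∈ v y m} ≤ κ h) : False := by
  classical
  have hWne : Nonempty W := by
    rw [← mk_ne_zero_iff, hW]
    exact (succ_ne_zero _)
  -- choice of realizations of types
  let pick : (a : Set W) → Set (a × ℕ) → W := fun a t =>
    if hx : ∃ x : W, x ∉ a ∧ ∀ (y : a) (m : ℕ), (x ∈ v y.1 m ↔ (y, m) ∈ t) then hx.choose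
    else Classical.arbitrary W
  have hpick : ∀ (a : Set W) (t : Set (a × ℕ)),
      (∃ x : W, x ∉ a ∧ ∀ (y : a) (m : ℕ), (x ∈ v y.1 m ↔ (y, m) ∈ t)) →
      pick a t ∉ a ∧ ∀ (y : a) (m : ℕ), (pick a t ∈ v y.1 m ↔ (y, m) ∈ t) := by
    intro a t hx
    simp only [pick, dif_pos hx]
    exact hx.choose_spec
  let G : Set W → Set W := fun a =>
    (⋃ y ∈ a, {x : W | ∀ m, h < m → x ∈ v y m}) ∪ range (pick a)
  have h2 : ℵ₀ ≤ (2 : Cardinal.{u}) ^ κ h := (C.inf h).trans (cantor _).le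
  have hG : ∀ a : Set W, #a ≤ κ h → #(G a) ≤ 2 ^ κ h := by
    intro a ha
    refine (mk_union_le _ _).trans ((add_le_add ?_ ?_).trans (add_eq_self h2).le)
    · exact mk_biUnion_le_of_le _ _ _ h2 (ha.trans (cantor _).le)
        (fun y _ => (hsmall y).trans (cantor _).le)
    · refine mk_range_le.trans ?_
      rw [mk_set]
      refine power_le_power_left two_ne_zero ?_
      rw [mk_prod, lift_uzero, mk_nat, lift_aleph0]
      calc #a * ℵ₀ ≤ κ h * κ h := mul_le_mul' ha (C.inf h)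
        _ = κ h := mul_eq_self (C.inf h)
  obtain ⟨N, hNcard, hN⟩ := exists_closed (κ h) (C.inf h) G hG
  -- a point outside `N`
  have hxs : ∃ xs : W, xs ∉ N := by
    by_contra hcon
    push Not at hcon
    have h3 : N = Set.univ := eq_univ_of_forall hcon
    rw [h3, mk_univ, hW] at hNcard
    exact absurd hNcard (not_le.2 (lt_succ _))
  obtain ⟨xs, hxs⟩ := hxs
  have hm : ∀ y : W, ∃ m, y ∈ N → h < m ∧ xs ∉ v y m := by
    intro y
    by_cases hy : y ∈ N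
    · have h3 : G {y} ⊆ N := hN {y} (by simpa using hy) (by
        rw [mk_singleton]; exact one_lt_aleph0.le.trans (C.inf h))
      have h4 : xs ∉ {x : W | ∀ m, h < m → x ∈ v y m} := by
        intro h5
        apply hxs
        apply h3
        left
        exact mem_biUnion (mem_singleton y) h5
      simp only [Set.mem_ofPred_eq, not_forall] at h4
      obtain ⟨m, hm1, hm2⟩ := h4
      exact ⟨m, fun _ => ⟨hm1, hm2⟩⟩
    · exact ⟨0, fun h5 => absurd h5 hy⟩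
  choose mm hmm using hm
  -- the sets of candidates
  let Y : ℕ → Set S := fun m =>
    {z | ∃ y ∈ N, mm y = m ∧ z ∈ A y.1 m ∧ {x : W | z ∈ f x.1} = v y m}
  have hYP : ∀ m, Y m ⊆ P m := by
    rintro m z ⟨y, _, _, hz, _⟩
    exact hA _ _ hz
  have hYx : ∀ m, ∀ z ∈ Y m, Ind f xs.1 z := by
    rintro m z hz
    have hzP := hYP m hz
    obtain ⟨y, hyN, rfl, hzA, hzv⟩ := hz
    refine C.ind (hWL xs.2) hzP ?_
    intro hzf
    have h3 : xs ∈ {x : W | z ∈ f x.1} := hzf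
    rw [hzv] at h3
    exact (hmm y hyN).2 h3
  have hmax : ∀ m, ∃ A ⊆ Y m, A.Pairwise (Ind f) ∧ ∀ z ∈ Y m, z ∉ TT f A :=
    fun m => exists_maximal_free (Y m)
  choose A₀ hA₀Y hA₀free hA₀max using hmax
  have hA₀P : ∀ m, A₀ m ⊆ P m := fun m => (hA₀Y m).trans (hYP m)
  have hA₀card : ∀ m, #(A₀ m) < ι₀ := by
    intro m
    refine C.Lfree xs.1 (hWL xs.2) m (A₀ m) (hA₀P m) (hA₀free m) ?_
    intro z hz
    exact hYx m z (hA₀Y m hz)
  have hyz : ∀ (m : ℕ) (z : A₀ m), ∃ y : W, y ∈ N ∧ mm y = m ∧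
      {x : W | z.1 ∈ f x.1} = v y m := by
    intro m z
    obtain ⟨y, hy1, hy2, _, hy4⟩ := hA₀Y m z.2
    exact ⟨y, hy1, hy2, hy4⟩
  choose yz hyzN hyzm hyzv using hyz
  let a : Set W := ⋃ m, range (yz m)
  have haN : a ⊆ N := by
    refine iUnion_subset fun m => ?_
    rintro _ ⟨z, rfl⟩
    exact hyzN m z
  have hacard : #a ≤ κ h := by
    refine mk_iUnion_nat_le_of_le _ _ (C.inf h) (fun m => ?_)
    exact (mk_range_le.trans (hA₀card m).le).trans (C.gei h)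
  let t : Set (a × ℕ) := {p | xs ∈ v p.1.1 p.2}
  have hex : ∃ x : W, x ∉ a ∧ ∀ (y : a) (m : ℕ), (x ∈ v y.1 m ↔ (y, m) ∈ t) :=
    ⟨xs, fun h3 => hxs (haN h3), fun y m => Iff.rfl⟩
  obtain ⟨hp1, hp2⟩ := hpick a t hex
  have hpN : pick a t ∈ N := hN a haN hacard (Or.inr (mem_range_self t))
  set x' := pick a t with hx'
  have hm' := hmm x' hpN
  have hx'T : x'.1 ∈ TT f (A₀ (mm x')) := by
    intro z hz
    refine C.ind (hWL x'.2) (hA₀P _ hz) ?_
    intro hzf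
    have h3 : x' ∈ {x : W | z ∈ f x.1} := hzf
    rw [hyzv (mm x') ⟨z, hz⟩] at h3
    have h4 : yz (mm x') ⟨z, hz⟩ ∈ a := mem_iUnion.2 ⟨_, mem_range_self _⟩
    have h5 := (hp2 ⟨_, h4⟩ (mm x')).1 h3
    have h6 := (hmm _ (hyzN (mm x') ⟨z, hz⟩)).2
    rw [hyzm] at h6
    exact h6 h5
  obtain ⟨z', hz', hz'T⟩ := not_null_nonempty (hv x' (mm x') hm'.1) (hA₀P (mm x'))
    ((hA₀card _).le.trans (C.gei _)) hx'T
  exact hA₀max (mm x') z' ⟨x', hpN, rfl, hz'.1, hz'.2⟩ hz'T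

theorem Ctx.good_step (C : Ctx f lam ι₀ κ P L) (h : ℕ) (A : S → ℕ → Set S)
    (hA : ∀ y m, A y m ⊆ P m) (Bad : Set S) (hBL : Bad ⊆ L)
    (hnn : ∀ y ∈ Bad, ∀ m, ¬ Null f (P m) (κ m) y (A y m))
    (hbad : ∀ y ∈ Bad, ¬ ∃ w, Good f κ P L h (A y) y w) : #Bad ≤ lam := by
  classical
  by_contra hcon
  rw [not_le] at hcon
  have hlam : ℵ₀ ≤ lam := (C.inf 0).trans ((cantor _).le.trans (C.lt 0).le)
  have h2 : ℵ₀ ≤ (2 : Cardinal.{u}) ^ κ h := (C.inf h).trans (cantor _).le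
  -- traces
  let Q : Set S := ⋃ m : ℕ, (if m ≤ h then P m else ∅)
  have hQcard : #Q ≤ 2 ^ κ h := by
    refine mk_iUnion_nat_le_of_le _ _ h2 (fun m => ?_)
    by_cases hm : m ≤ h
    · rw [if_pos hm]
      exact (C.Pcard m).trans (power_le_power_left two_ne_zero (C.mono hm))
    · rw [if_neg hm]; simp
  have hPQ : ∀ m ≤ h, P m ⊆ Q := by
    intro m hm z hz
    exact mem_iUnion.2 ⟨m, by rw [if_pos hm]; exact hz⟩
  have hfib : ∃ t : Set Q, lam < #{y | y ∈ Bad ∧ {z : Q | z.1 ∈ f y} = t} := by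
    by_contra hall
    push Not at hall
    have h3 : Bad ⊆ ⋃ t : Set Q, {y | y ∈ Bad ∧ {z : Q | z.1 ∈ f y} = t} := by
      intro y hy
      exact mem_iUnion.2 ⟨_, hy, rfl⟩
    have h4 := (mk_le_mk_of_subset h3).trans (mk_iUnion_le_of_le _ lam hlam (by
      rw [mk_set]
      exact (power_le_power_left two_ne_zero hQcard).trans (C.pow h)) hall)
    exact absurd h4 (not_le.2 hcon)
  obtain ⟨t, ht⟩ := hfib
  have hsl : succ ((2 : Cardinal.{u}) ^ κ h) ≤ #{y | y ∈ Bad ∧ {z : Q | z.1 ∈ f y} = t} :=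
    (succ_le_of_lt (C.lt h)).trans ht.le
  obtain ⟨W, hWsub, hWcard⟩ := le_mk_iff_exists_subset.1 hsl
  have hWB : ∀ y ∈ W, y ∈ Bad := fun y hy => (hWsub hy).1
  have htr : ∀ x ∈ W, ∀ y ∈ W, ∀ m ≤ h, P m ∩ f x = P m ∩ f y := by
    intro x hx y hy m hm
    have h3 : {z : Q | z.1 ∈ f x} = {z : Q | z.1 ∈ f y} :=
      (hWsub hx).2.trans (hWsub hy).2.symm
    ext z
    constructor
    · rintro ⟨h4, h5⟩
      refine ⟨h4, ?_⟩
      have h6 : (⟨z, hPQ m hm h4⟩ : Q) ∈ {z : Q | z.1 ∈ f x} := h5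
      rw [h3] at h6
      exact h6
    · rintro ⟨h4, h5⟩
      refine ⟨h4, ?_⟩
      have h6 : (⟨z, hPQ m hm h4⟩ : Q) ∈ {z : Q | z.1 ∈ f y} := h5
      rw [← h3] at h6
      exact h6
  -- colours
  have hv : ∀ (y : W) (m : ℕ), ∃ v : Set W, h < m →
      ¬ Null f (P m) (κ m) y.1 {z ∈ A y.1 m | {x : W | z ∈ f x.1} = v} := by
    intro y m
    by_cases hm : h < m
    · by_contra hall
      push Not at hall
      apply hnn y.1 (hWB _ y.2) m
      have h3 : Null f (P m) (κ m) y.1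
          (⋃ v : Set W, {z ∈ A y.1 m | {x : W | z ∈ f x.1} = v}) := by
        refine null_iUnion (C.inf m) ?_ _ (fun v => (hall v).2)
        rw [mk_set, hWcard]
        exact (C.step h).trans (C.mono hm)
      refine h3.mono ?_
      intro z hz
      exact mem_iUnion.2 ⟨_, hz, rfl⟩
    · exact ⟨∅, fun h3 => absurd h3 hm⟩
  choose v hv using hv
  refine C.heart h A hA W (fun y hy => hBL (hWB y hy)) hWcard v hv ?_
  intro y
  by_contra hbig
  rw [not_le] at hbig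
  obtain ⟨p, hp, hpc⟩ := le_mk_iff_exists_subset.1 hbig.le
  apply hbad y.1 (hWB _ y.2)
  refine ⟨Subtype.val '' p, ?_, ?_, ?_, ?_⟩
  · rintro _ ⟨x, _, rfl⟩
    exact hBL (hWB _ x.2)
  · rw [mk_image_eq Subtype.val_injective, hpc]
  · rintro _ ⟨x, _, rfl⟩ m hm
    exact htr _ x.2 _ y.2 m hm
  · intro m hm hnull
    apply hv y m hm
    refine hnull.mono ?_
    rintro z ⟨hz1, hz2⟩
    refine ⟨hz1, ?_⟩
    simp only [mem_iInter]
    rintro _ ⟨x, hx, rfl⟩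
    have h3 : x ∈ v y m := hp hx m hm
    rw [← hz2] at h3
    exact h3

end Pool.Agent.H.MP_5fddfa_lc
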