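import Mathlib
import Pool.Agent.H.MP_5fddfa_lc.Step

open Cardinal Set Order

universe u

namespace Pool.Agent.H.MP_5fddfa_lc

variable {S : Type u} {f : S → Set S}
variable {lam ι₀ : Cardinal.{u}} {κ : ℕ → Cardinal.{u}} {P : ℕ → Set S} {L : Set S}

open Classical in
/-- The set chosen for `y` at step `h` with current assignment `A`. -/
noncomputable def wOf (f : S → Set S) (κ : ℕ → Cardinal.{u}) (P : ℕ → Set S) (L : Set S)
    (y : S) (h : ℕ) (A : ℕ → Set S) : Set S :=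
  if H : ∃ w, Good f κ P L h A y w then H.choose else ∅

/-- The assignments. -/
noncomputable def AA (f : S → Set S) (κ : ℕ → Cardinal.{u}) (P : ℕ → Set S) (L : Set S)
    (y : S) : ℕ → ℕ → Set S
  | 0 => fun m => P m ∩ f y
  | h + 1 => fun m =>
    if h < m then AA f κ P L y h m ∩ ⋂ x ∈ wOf f κ P L y h (AA f κ P L y h), f x
    else AA f κ P L y h m

theorem AA_succ_sub (y : S) (h m : ℕ) : AA f κ P L y (h + 1) m ⊆ AA f κ P L y h m := by
  rw [AA]
  dsimp only
  split_ifs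
  · exact inter_subset_left
  · exact subset_rfl

theorem AA_anti (y : S) (m : ℕ) {h h' : ℕ} (hh : h ≤ h') :
    AA f κ P L y h' m ⊆ AA f κ P L y h m := by
  induction hh with
  | refl => exact subset_rfl
  | step _ ih => exact (AA_succ_sub y _ m).trans ih

theorem AA_sub_P (y : S) (h m : ℕ) : AA f κ P L y h m ⊆ P m :=
  (AA_anti y m (Nat.zero_le h)).trans inter_subset_left

theorem Ctx.conclusion (C : Ctx f lam ι₀ κ P L) (hsup : ∀ c, (∀ n, κ n ≤ c) → lam ≤ c)
    (hL : #(Lᶜ : Set S) ≤ lam) (hS : lam < #S) :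
    ∃ X : Set S, #X = lam ∧ lam ≤ #(⋂ x ∈ X, f x : Set S) := by
  classical
  have hlam : ℵ₀ ≤ lam := (C.inf 0).trans ((cantor _).le.trans (C.lt 0).le)
  have hκlam : ∀ n, κ n ≤ lam := fun n => ((cantor _).trans (C.lt n)).le
  let Bad : ℕ → Set S := fun h => {y | y ∈ L ∧
    (∀ m, ¬ Null f (P m) (κ m) y (AA f κ P L y h m)) ∧
    ¬ ∃ w, Good f κ P L h (AA f κ P L y h) y w}
  have hBad : ∀ h, #(Bad h) ≤ lam := by
    intro h
    exact C.good_step h (fun y m => AA f κ P L y h m) (fun y m => AA_sub_P y h m) (Bad h)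
      (fun y hy => hy.1) (fun y hy m => hy.2.1 m) (fun y hy => hy.2.2)
  have hU : #(Lᶜ ∪ ⋃ h, Bad h : Set S) ≤ lam := by
    refine (mk_union_le _ _).trans ?_
    exact (add_le_add hL (mk_iUnion_nat_le_of_le _ _ hlam hBad)).trans (add_eq_self hlam).le
  have hy : ∃ y, y ∉ (Lᶜ ∪ ⋃ h, Bad h : Set S) := by
    by_contra hcon
    push Not at hcon
    rw [eq_univ_of_forall hcon, mk_univ] at hU
    exact absurd hU (not_le.2 hS)
  obtain ⟨y, hy⟩ := hy
  have hyL : y ∈ L := by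
    by_contra h1
    exact hy (Or.inl h1)
  have hyB : ∀ h, y ∉ Bad h := fun h h1 => hy (Or.inr (mem_iUnion.2 ⟨h, h1⟩))
  let w : ℕ → Set S := fun h => wOf f κ P L y h (AA f κ P L y h)
  have hgood_of : ∀ h, (∀ m, ¬ Null f (P m) (κ m) y (AA f κ P L y h m)) →
      Good f κ P L h (AA f κ P L y h) y (w h) := by
    intro h hn
    have hex : ∃ w, Good f κ P L h (AA f κ P L y h) y w := by
      by_contra h1
      exact hyB h ⟨hyL, hn, h1⟩
    have : w h = hex.choose := by
      simp only [w, wOf, dif_pos hex]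
    rw [this]
    exact hex.choose_spec
  have hnn : ∀ h m, ¬ Null f (P m) (κ m) y (AA f κ P L y h m) := by
    intro h
    induction h with
    | zero => exact fun m => C.not_null_f hyL m
    | succ h ih =>
      intro m
      have hg := hgood_of h ih
      rw [AA]
      dsimp only
      split_ifs with hm
      · exact hg.2.2.2 m hm
      · exact ih m
  have hgood : ∀ h, Good f κ P L h (AA f κ P L y h) y (w h) := fun h => hgood_of h (hnn h)
  refine ⟨⋃ h, w h, le_antisymm ?_ ?_, ?_⟩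
  · exact mk_iUnion_nat_le_of_le _ _ hlam (fun h => (hgood h).2.1.le.trans (hκlam h))
  · apply hsup
    intro n
    rw [← (hgood n).2.1]
    exact mk_le_mk_of_subset (subset_iUnion w n)
  · apply hsup
    intro m
    have h1 : AA f κ P L y m m ⊆ ⋂ x ∈ ⋃ h, w h, f x := by
      intro z hz
      simp only [mem_iInter]
      intro x hx
      obtain ⟨h, hh⟩ := mem_iUnion.1 hx
      by_cases hm : h < m
      · have h2 := AA_anti (f := f) (κ := κ) (P := P) (L := L) y m (show h + 1 ≤ m from hm) hz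
        rw [AA] at h2
        dsimp only at h2
        rw [if_pos hm] at h2
        have h3 := h2.2
        simp only [mem_iInter] at h3
        exact h3 x hh
      · have h2 := (hgood h).2.2.1 x hh m (not_lt.1 hm)
        have h3 : z ∈ P m ∩ f y := AA_anti (f := f) (κ := κ) (P := P) (L := L) y m
          (Nat.zero_le m) hz
        rw [← h2] at h3
        exact h3.2
    have h2 := not_null_card (hnn m m) (a := ∅) (empty_subset _) (by simp)
      (fun z hz => absurd hz (notMem_empty z))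
    exact (h2.le.trans (mk_le_mk_of_subset inter_subset_left)).trans (mk_le_mk_of_subset h1)

/-- Existence of the context, and the core theorem. -/
theorem core (lam ι₀ : Cardinal.{u}) (hS : lam < #S) (f : S → Set S)
    (hf : ∀ x, #(f x) ≤ lam)
    (hdag : ∀ I : Set S, I.Pairwise (Ind f) → #I = ι₀ → #(TT f I) ≤ lam)
    (κ : ℕ → Cardinal.{u}) (hinf : ∀ n, ℵ₀ ≤ κ n) (hgei : ∀ n, ι₀ ≤ κ n)
    (hlt : ∀ n, (2 : Cardinal.{u}) ^ κ n < lam) (hmono : Monotone κ)
    (hstep : ∀ n, (2 : Cardinal.{u}) ^ (succ ((2 : Cardinal.{u}) ^ κ n)) ≤ κ (n + 1))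
    (hpow : ∀ n, (2 : Cardinal.{u}) ^ ((2 : Cardinal.{u}) ^ κ n) ≤ lam)
    (hsup : ∀ c, (∀ n, κ n ≤ c) → lam ≤ c) :
    ∃ X : Set S, #X = lam ∧ lam ≤ #(⋂ x ∈ X, f x : Set S) := by
  classical
  have hlam : ℵ₀ ≤ lam := (hinf 0).trans ((cantor _).le.trans (hlt 0).le)
  have hPex : ∀ m, ∃ P : Set S, #P ≤ (2 : Cardinal.{u}) ^ κ m ∧
      ∀ a ⊆ P, #a ≤ κ m → lam < #(TT f a) → κ m < #(P ∩ TT f a : Set S) := by
    intro m
    have hsub : ∀ a : Set S, ∃ b : Set S, #b ≤ succ (κ m) ∧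
        (lam < #(TT f a) → b ⊆ TT f a ∧ #b = succ (κ m)) := by
      intro a
      by_cases ha : lam < #(TT f a)
      · have h1 : succ (κ m) ≤ #(TT f a) :=
          (succ_le_of_lt (((cantor (κ m)).trans (hlt m)))).trans ha.le
        obtain ⟨b, hb1, hb2⟩ := le_mk_iff_exists_subset.1 h1
        exact ⟨b, hb2.le, fun _ => ⟨hb1, hb2⟩⟩
      · exact ⟨∅, by simp, fun h => absurd h ha⟩
    choose G hG1 hG2 using hsub
    obtain ⟨P, hP1, hP2⟩ := exists_closed (κ m) (hinf m) G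
      (fun a _ => (hG1 a).trans (succ_le_of_lt (cantor _)))
    refine ⟨P, hP1, ?_⟩
    intro a ha hka hbig
    obtain ⟨h1, h2⟩ := hG2 a hbig
    have h3 : G a ⊆ P ∩ TT f a := subset_inter (hP2 a ha hka) h1
    calc κ m < succ (κ m) := lt_succ _
      _ = #(G a) := h2.symm
      _ ≤ _ := mk_le_mk_of_subset h3
  choose P hP1 hP2 using hPex
  let L : Set S := {x | ∀ m, x ∉ P m ∧ (∀ z ∈ P m, x ∉ f z) ∧
    ∀ a ⊆ P m, #a ≤ κ m → x ∈ TT f a → lam < #(TT f a)}
  have C : Ctx f lam ι₀ κ P L := by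
    refine ⟨hinf, hgei, hlt, hmono, hstep, hpow, hP1, ?_, ?_, ?_⟩
    · intro x hx m z hz
      refine ⟨?_, (hx m).2.1 z hz⟩
      rintro rfl
      exact (hx m).1 hz
    · intro x hx m a ha hka hxa
      exact hP2 m a ha hka ((hx m).2.2 a ha hka hxa)
    · intro x hx m A hA hfree hxA
      by_contra hcon
      rw [not_lt] at hcon
      obtain ⟨I, hIA, hI⟩ := le_mk_iff_exists_subset.1 hcon
      have h1 := hdag I (hfree.mono hIA) hI
      have h2 := (hx m).2.2 I (hIA.trans hA) (hI.le.trans (hgei m)) (TT_anti hIA hxA)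
      exact absurd h1 (not_le.2 h2)
  refine C.conclusion hsup ?_ hS
  have hsubset : (Lᶜ : Set S) ⊆ ⋃ m, (P m ∪ ((⋃ z ∈ P m, f z) ∪
      ⋃ a ∈ {a : Set S | a ⊆ P m ∧ #(TT f a) ≤ lam}, TT f a)) := by
    intro x hx
    simp only [L, mem_compl_iff, Set.mem_ofPred_eq, not_forall] at hx
    obtain ⟨m, hm⟩ := hx
    refine mem_iUnion.2 ⟨m, ?_⟩
    by_cases h1 : x ∈ P m
    · exact Or.inl h1
    right
    by_cases h2 : ∀ z ∈ P m, x ∉ f z
    · right
      have h3 : ¬ ∀ a ⊆ P m, #a ≤ κ m → x ∈ TT f a → lam < #(TT f a) :=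
        fun h => hm ⟨h1, h2, h⟩
      push Not at h3
      obtain ⟨a, ha, _, hxa, hlam'⟩ := h3
      exact mem_biUnion (show a ∈ {a : Set S | a ⊆ P m ∧ #(TT f a) ≤ lam} from ⟨ha, hlam'⟩) hxa
    · left
      push Not at h2
      obtain ⟨z, hz, hxz⟩ := h2
      exact mem_biUnion hz hxz
  refine (mk_le_mk_of_subset hsubset).trans ?_
  refine mk_iUnion_nat_le_of_le _ _ hlam (fun m => ?_)
  refine (mk_union_le _ _).trans ((add_le_add ?_ ?_).trans (add_eq_self hlam).le)
  · exact (hP1 m).trans (hlt m).le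
  refine (mk_union_le _ _).trans ((add_le_add ?_ ?_).trans (add_eq_self hlam).le)
  · exact mk_biUnion_le_of_le _ _ _ hlam ((hP1 m).trans (hlt m).le) (fun z _ => hf z)
  · refine mk_biUnion_le_of_le _ _ _ hlam ?_ (fun a ha => ha.2)
    have h1 : #{a : Set S | a ⊆ P m ∧ #(TT f a) ≤ lam} ≤ #(𝒫 (P m)) :=
      mk_le_mk_of_subset (fun a ha => ha.1)
    refine h1.trans ?_
    rw [mk_powerset]
    exact (power_le_power_left two_ne_zero (hP1 m)).trans (hpow m)

end Pool.Agent.H.MP_5fddfa_lc
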