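import Mathlib
import Pool.Agent.H.MP_5fddfa_lc.Final

open Cardinal Set Order

universe u

namespace Pool.Agent.H.MP_5fddfa_lc

theorem strong_limit_main (lam : Cardinal.{u}) (hω : ℵ₀ < lam) (hsl : ∀ c < lam, (2 : Cardinal.{u}) ^ c < lam)
    (g : ℕ → Cardinal.{u}) (hg : ∀ n, g n < lam) (hgsup : ∀ c < lam, ∃ n, c ≤ g n)
    (S : Type u) (hS : #S = succ lam) (f : S → Set S) (hself : ∀ x, x ∉ f x)
    (hf : ∀ x, #(f x) < succ lam)
    (hX : ∀ X : Set S, #X = lam → #(⋂ x ∈ X, f x : Set S) < lam) :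
    ∃ F : Set S, #F = lam ∧ ∀ x ∈ F, ∀ y ∈ F, x ∉ f y := by
  classical
  by_contra hno
  have hgsup' : ∀ c, (∀ n, g n ≤ c) → lam ≤ c := by
    intro c hc
    by_contra hcon
    rw [not_le] at hcon
    have h1 : succ c < lam := (succ_le_of_lt (cantor c)).trans_lt (hsl c hcon)
    obtain ⟨n, hn⟩ := hgsup _ h1
    exact absurd (hn.trans (hc n)) (not_le.2 (lt_succ c))
  -- the dagger reduction
  have hdag : ∃ Y : Set S, lam < #Y ∧ ∃ ι₀ < lam, ∀ I ⊆ Y, I.Pairwise (Ind f) → #I = ι₀ →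
      #(Y ∩ TT f I : Set S) ≤ lam := by
    by_contra hcon
    push Not at hcon
    have hcon' : ∀ (Y : {Y : Set S // lam < #Y}) (n : ℕ), ∃ I ⊆ Y.1, I.Pairwise (Ind f) ∧
        #I = g n ∧ lam < #(Y.1 ∩ TT f I : Set S) := by
      intro Y n
      obtain ⟨I, h1, h2, h3, h4⟩ := hcon Y.1 Y.2 (g n) (hg n)
      exact ⟨I, h1, h2, h3, h4⟩
    choose II hI1 hI2 hI3 hI4 using hcon'
    let Ys : ℕ → {Y : Set S // lam < #Y} := fun n => Nat.rec
      ⟨Set.univ, by rw [mk_univ, hS]; exact lt_succ lam⟩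
      (fun n Y => ⟨Y.1 ∩ TT f (II Y n), hI4 Y n⟩) n
    have hYs : ∀ n, (Ys (n + 1)).1 = (Ys n).1 ∩ TT f (II (Ys n) n) := fun n => rfl
    have hanti : ∀ m n, m ≤ n → (Ys n).1 ⊆ (Ys m).1 := by
      intro m n hmn
      induction hmn with
      | refl => exact subset_rfl
      | step _ ih => rw [hYs]; exact inter_subset_left.trans ih
    have hlt : ∀ m n, m < n → ∀ x ∈ II (Ys m) m, ∀ y ∈ II (Ys n) n, Ind f y x := by
      intro m n hmn x hx y hy
      have h1 : y ∈ (Ys (m + 1)).1 := hanti _ _ hmn (hI1 _ _ hy)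
      rw [hYs] at h1
      exact h1.2 x hx
    apply hno
    refine ⟨⋃ n, II (Ys n) n, le_antisymm ?_ ?_, ?_⟩
    · exact mk_iUnion_nat_le_of_le _ _ hω.le (fun n => by rw [hI3]; exact (hg n).le)
    · apply hgsup'
      intro n
      rw [← hI3 (Ys n) n]
      exact mk_le_mk_of_subset (subset_iUnion (fun n => II (Ys n) n) n)
    · intro x hx y hy
      obtain ⟨m, hm⟩ := mem_iUnion.1 hx
      obtain ⟨n, hn⟩ := mem_iUnion.1 hy
      by_cases hxy : x = y
      · rw [hxy]; exact hself y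
      · rcases lt_trichotomy m n with h | h | h
        · exact (hlt m n h x hm y hn).2.2
        · subst h
          exact (hI2 _ _ hm hn hxy).2.1
        · exact (hlt n m h y hn x hm).2.1
  obtain ⟨Y, hY, ι₀, hι₀, hYd⟩ := hdag
  -- the subtype
  let f' : Y → Set Y := fun y => {z | z.1 ∈ f y.1}
  have hInd : ∀ x y : Y, Ind f' x y ↔ Ind f x.1 y.1 := by
    intro x y
    simp only [Ind, f', Set.mem_ofPred_eq, ne_eq, Subtype.ext_iff]
  have hTT : ∀ I : Set Y, Subtype.val '' (TT f' I) ⊆ Y ∩ TT f (Subtype.val '' I) := by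
    rintro I _ ⟨z, hz, rfl⟩
    refine ⟨z.2, ?_⟩
    rintro _ ⟨y, hy, rfl⟩
    exact (hInd _ _).1 (hz y hy)
  have hdag' : ∀ I : Set Y, I.Pairwise (Ind f') → #I = ι₀ → #(TT f' I) ≤ lam := by
    intro I hI hcard
    have h1 := hYd (Subtype.val '' I) (by rintro _ ⟨y, _, rfl⟩; exact y.2) (by
      rintro _ ⟨x, hx, rfl⟩ _ ⟨y, hy, rfl⟩ hxy
      exact (hInd _ _).1 (hI hx hy (fun h => hxy (by rw [h])))) (by
      rw [mk_image_eq Subtype.val_injective, hcard])
    rw [← mk_image_eq (s := TT f' I) Subtype.val_injective]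
    exact (mk_le_mk_of_subset (hTT I)).trans h1
  have hf' : ∀ x, #(f' x) ≤ lam := by
    intro x
    rw [← mk_image_eq (s := f' x) Subtype.val_injective]
    have h1 : Subtype.val '' (f' x) ⊆ f x.1 := by
      rintro _ ⟨z, hz, rfl⟩
      exact hz
    exact (mk_le_mk_of_subset h1).trans (lt_succ_iff.1 (hf x.1))
  -- the sequence of cardinals
  let κ : ℕ → Cardinal.{u} := fun n => Nat.rec (max ℵ₀ (max ι₀ (g 0)))
    (fun n c => max ((2 : Cardinal.{u}) ^ (succ ((2 : Cardinal.{u}) ^ c))) (g (n + 1))) n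
  have hκs : ∀ n, κ (n + 1) =
    max ((2 : Cardinal.{u}) ^ (succ ((2 : Cardinal.{u}) ^ κ n))) (g (n + 1)) := fun n => rfl
  have hκlt : ∀ n, κ n < lam := by
    intro n
    induction n with
    | zero => exact max_lt hω (max_lt hι₀ (hg 0))
    | succ n ih =>
      rw [hκs]
      refine max_lt (hsl _ ?_) (hg _)
      have h1 := hsl _ ih
      exact (succ_le_of_lt (cantor _)).trans_lt (hsl _ h1)
  have hstep : ∀ n, (2 : Cardinal.{u}) ^ (succ ((2 : Cardinal.{u}) ^ κ n)) ≤ κ (n + 1) :=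
    fun n => by rw [hκs]; exact le_max_left _ _
  have hmono : Monotone κ := by
    refine monotone_nat_of_le_succ fun n => ?_
    refine le_trans ?_ (hstep n)
    exact ((cantor (κ n)).le.trans (le_succ _)).trans (cantor _).le
  have h0 : ∀ n, κ 0 ≤ κ n := fun n => hmono (Nat.zero_le n)
  have hgκ : ∀ n, g n ≤ κ n := by
    intro n
    cases n with
    | zero => exact (le_max_right _ _).trans (le_max_right _ _)
    | succ n => rw [hκs]; exact le_max_right _ _
  obtain ⟨X, hX1, hX2⟩ := core lam ι₀ hY f' hf' hdag' κ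
    (fun n => (le_max_left _ _).trans (h0 n))
    (fun n => ((le_max_left _ _).trans (le_max_right _ _)).trans (h0 n))
    (fun n => hsl _ (hκlt n)) hmono hstep (fun n => (hsl _ (hsl _ (hκlt n))).le)
    (fun c hc => hgsup' c (fun n => (hgκ n).trans (hc n)))
  have h3 := hX (Subtype.val '' X) (by rw [mk_image_eq Subtype.val_injective, hX1])
  have h4 : Subtype.val '' (⋂ x ∈ X, f' x) ⊆ ⋂ x ∈ Subtype.val '' X, f x := by
    rintro _ ⟨z, hz, rfl⟩
    simp only [mem_iInter] at hz ⊢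
    rintro _ ⟨x, hx, rfl⟩
    exact hz x hx
  have h5 := mk_le_mk_of_subset h4
  rw [mk_image_eq Subtype.val_injective] at h5
  exact absurd (hX2.trans h5) (not_le.2 h3)

theorem exists_seq_of_cof (lam : Cardinal.{u}) (hcof : lam.ord.cof = ℵ₀) :
    ∃ g : ℕ → Cardinal.{u}, (∀ n, g n < lam) ∧ ∀ c < lam, ∃ n, c ≤ g n := by
  obtain ⟨s, hs1, hs2⟩ := Order.exists_cof_eq lam.ord.ToType
  have h1 : Order.cof lam.ord.ToType = ℵ₀ := (Ordinal.cof_toType _).trans hcof
  rw [h1] at hs2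
  have hne : s.Nonempty := by
    rw [← Set.nonempty_coe_sort, ← mk_ne_zero_iff, hs2]
    exact aleph0_ne_zero
  have hcount : s.Countable := by
    rw [← Cardinal.le_aleph0_iff_set_countable]
    exact hs2.le
  obtain ⟨e, he⟩ := hcount.exists_eq_range hne
  refine ⟨fun n => (Ordinal.ToType.toOrd (e n)).1.card, fun n => ?_, fun c hc => ?_⟩
  · exact Cardinal.lt_ord.1 (Ordinal.ToType.toOrd (e n)).2
  · have h2 : c.ord < lam.ord := ord_lt_ord.2 hc
    obtain ⟨b, hb, hle⟩ := hs1 (Ordinal.ToType.mk ⟨c.ord, h2⟩)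
    rw [he] at hb
    obtain ⟨n, rfl⟩ := hb
    refine ⟨n, ?_⟩
    have h3 : (⟨c.ord, h2⟩ : Set.Iio lam.ord) ≤ Ordinal.ToType.toOrd (e n) := by
      exact (OrderIso.le_symm_apply _).2 hle
    have h4 := Ordinal.card_le_card (show c.ord ≤ (Ordinal.ToType.toOrd (e n)).1 from h3)
    simpa using h4

end Pool.Agent.H.MP_5fddfa_lc
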